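import Pool.Agent.COSB.StmtsB

/-!
# Squad COSB, row ODM: the theorem for odd primes from ONE, FLD, CNT, MCB
-/

set_option autoImplicit false

namespace Pool.Agent.COSB.H3

open Turing Computability Pool.Agent.UT.Num Pool.Agent.H2XG Pool.Agent.PAR Pool.Agent.COS

/-- an accepted certificate has the prescribed length -/
theorem val2_length (F : Type) [Field F] [Fintype F] [DecidableEq F]
    (val : (Word → Word → Bool) → ℕ → ℕ → Word → Bool) (len : ℕ → ℕ → ℕ)
    (V : Word × Word → Bool) (p k n : ℕ) (x c : Word) (h : val2 F val len V p k n x c = true) :
    c.length = 4 * (n * n * Fintype.card F) + len (n * Fintype.card F) (lenC F p k n) := by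
  unfold val2 at h
  simp only [Bool.and_eq_true, decide_eq_true_eq] at h
  exact h.1.1.1.1

theorem odm (h1 : OneStmt) (h2 : FldStmt) (h3 : CntStmt) (h4 : McbStmt) : OdmStmt := by
  intro p hp hp2 V d k hV hk P hH
  obtain ⟨val, len, hval, hodd, hG, hN, hpoly⟩ := h1
  obtain ⟨F, iF, iT, hcard, hhom⟩ := h2 p hp hp2
  let _ : DecidableEq F := Classical.decEq F
  obtain ⟨e, he⟩ := hpoly (d * Polynomial.C (Fintype.card F))
    (d * d * Polynomial.C (Fintype.card F) + d * d * k * Polynomial.C (db p))
  refine ⟨{x | Odd {C : Word | val2 F val len V p (k.eval x.length) (d.eval x.length) x C =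
    true}.ncard}, ⟨fun z => val2 F val len V p (k.eval z.1.length) (d.eval z.1.length) z.1 z.2,
      4 * (d * d * Polynomial.C (Fintype.card F)) + e, h4 F val len hG hN V p d k hV,
        fun x => ?_⟩, fun x hx => ?_⟩
  · have hw : witnesses (fun z => val2 F val len V p (k.eval z.1.length) (d.eval z.1.length)
        z.1 z.2) (4 * (d * d * Polynomial.C (Fintype.card F)) + e) x =
        {C : Word | val2 F val len V p (k.eval x.length) (d.eval x.length) x C = true} := by
      ext c
      constructor
      · intro h
        exact h.2
      · intro h
        refine ⟨?_, h⟩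
        have h' : val2 F val len V p (k.eval x.length) (d.eval x.length) x c = true := h
        have hl := val2_length F val len V p _ _ x c h'
        have h5 := he x.length
        simp only [Polynomial.eval_add, Polynomial.eval_mul, Polynomial.eval_C] at h5
        have e1 : lenC F p (k.eval x.length) (d.eval x.length) =
            d.eval x.length * d.eval x.length * Fintype.card F +
              d.eval x.length * d.eval x.length * k.eval x.length * db p := rfl
        rw [← e1] at h5
        simp only [Polynomial.eval_add, Polynomial.eval_mul, Polynomial.eval_ofNat,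
          Polynomial.eval_C]
        omega
    rw [hw]
    exact Iff.rfl
  · obtain ⟨η⟩ := hhom (k.eval x.length) (hk x.length)
    exact h3 F p (k.eval x.length) (d.eval x.length) hp hp2 (hk x.length) hcard η val len hval
      hodd V x (hH x hx)

end Pool.Agent.COSB.H3
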